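import Mathlib.Tactic
import Mathlib.Data.Finset.Card
import Mathlib.Data.Int.Basic

/-!
# Project SD, job ORD: a polynomial rule for strong orderings (definitions and statements)
-/

set_option autoImplicit false

namespace Pool.Agent.K7.H71.SD

/-- one step between pairs of vertices -/
def St (adj : ℕ → ℕ → Prop) (p q : ℕ × ℕ) : Prop :=
  adj p.1 q.2 ∧ adj p.2 q.1 ∧ ¬ adj p.1 q.1 ∧ ¬ adj p.2 q.2

/-- reachable in an even (`false`) or odd (`true`) number of steps -/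
inductive Rc (adj : ℕ → ℕ → Prop) (p : ℕ × ℕ) : Bool → ℕ × ℕ → Prop
  | refl : Rc adj p false p
  | step {b : Bool} {q r : ℕ × ℕ} : Rc adj p b q → St adj q r → Rc adj p (!b) r

open Classical in
/-- the vector of the pair `p` -/
noncomputable def val (adj : ℕ → ℕ → Prop) (p : ℕ × ℕ) (q : ℕ) : ℤ :=
  (if ∃ v, Rc adj p false (q, v) then 1 else 0) - (if ∃ v, Rc adj p false (v, q) then 1 else 0) +
  ((if ∃ v, Rc adj p true (q, v) then 1 else 0) - (if ∃ v, Rc adj p true (v, q) then 1 else 0))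

/-- lexicographic order of pairs -/
def llt (r s : ℕ × ℕ) : Prop := r.1 < s.1 ∨ (r.1 = s.1 ∧ r.2 < s.2)

/-- the vector of `p` is lexicographically positive -/
def LP (adj : ℕ → ℕ → Prop) (p : ℕ × ℕ) : Prop :=
  ∃ q, 0 < val adj p q ∧ ∀ q' < q, val adj p q' = 0

/-- the tie rule -/
def Tie (adj : ℕ → ℕ → Prop) (p : ℕ × ℕ) : Prop :=
  ∃ b r, Rc adj p b r ∧ ∀ b' r', Rc adj p b' r' → llt r (r'.2, r'.1)

/-- the arrows -/
def Arr (adj : ℕ → ℕ → Prop) (p : ℕ × ℕ) : Prop :=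
  (∃ r, St adj p r) ∧ (LP adj p ∨ ((∀ q, val adj p q = 0) ∧ Tie adj p))

open Classical in
/-- the number of predecessors -/
noncomputable def rk (n : ℕ) (adj : ℕ → ℕ → Prop) (v : ℕ) : ℕ :=
  ((Finset.range n).filter (fun u => Arr adj (u, v))).card

open Classical in
/-- the position of the vertex `v` -/
noncomputable def pos (n : ℕ) (adj : ℕ → ℕ → Prop) (v : ℕ) : ℕ :=
  ((Finset.range n).filter (fun u => llt (rk n adj u, u) (rk n adj v, v))).card

/-- a graph on `0, ..., n - 1` -/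
structure Gr (n : ℕ) (adj : ℕ → ℕ → Prop) : Prop where
  lt : ∀ i j, adj i j → i < n
  symm : ∀ i j, adj i j → adj j i
  irr : ∀ i, ¬ adj i i

/-- the position function `f` is a strong ordering -/
def StrongPos (n : ℕ) (adj : ℕ → ℕ → Prop) (f : ℕ → ℕ) : Prop :=
  (∀ u < n, ∀ v < n, f u = f v → u = v) ∧
  ∀ i < n, ∀ j < n, ∀ k < n, ∀ l < n, f i < f j → f k < f l → adj i k → adj j l →
    adj i l ∨ adj j k

/-- the relabelled graph -/
def relab (n : ℕ) (adj : ℕ → ℕ → Prop) (f : ℕ → ℕ) (i j : ℕ) : Prop :=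
  ∃ u < n, ∃ v < n, f u = i ∧ f v = j ∧ adj u v

/-- MATH (helper71): if some strong ordering exists, then `pos` is one. -/
def StOrd : Prop := ∀ (n : ℕ) (adj : ℕ → ℕ → Prop), Gr n adj →
  (∃ f : ℕ → ℕ, StrongPos n adj f) →
    StrongPos n adj (pos n adj) ∧ ∀ v < n, pos n adj v < n

end Pool.Agent.K7.H71.SD
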